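import Mathlib

/-!
A bit-packed sieve of Eratosthenes with blockwise prime counts, checked by the kernel.
-/

namespace Pool.Agent.Lib.MP_d7b30a_nt

/-- The `j`-th digit of `X` in base `2 ^ w`. -/
def dig (w X j : ℕ) : ℕ := (X >>> (w * j)) % 2 ^ w

theorem dig_lt (w X j : ℕ) : dig w X j < 2 ^ w := Nat.mod_lt _ (Nat.two_pow_pos w)

theorem dig_shift (w X s j : ℕ) : dig w (X >>> (w * s)) j = dig w X (j + s) := by
  simp only [dig, ← Nat.shiftRight_add]
  congr 2
  ring

theorem testBit_dig (w X j i : ℕ) :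
    (dig w X j).testBit i = (decide (i < w) && X.testBit (w * j + i)) := by
  simp [dig]

theorem dig_add (w : ℕ) : ∀ (j X Y : ℕ), (∀ i, dig w X i + dig w Y i < 2 ^ w) →
    dig w (X + Y) j = dig w X j + dig w Y j := by
  intro j
  induction j with
  | zero =>
    intro X Y h
    have h0 := h 0
    simp only [dig, Nat.mul_zero, Nat.shiftRight_zero] at h0 ⊢
    exact Nat.add_mod_of_add_mod_lt h0
  | succ j ih =>
    intro X Y h
    have h0 := h 0
    simp only [dig, Nat.mul_zero, Nat.shiftRight_zero] at h0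
    have h1 : (X + Y) >>> (w * 1) = X >>> (w * 1) + Y >>> (w * 1) := by
      simp only [Nat.mul_one, Nat.shiftRight_eq_div_pow]
      exact Nat.add_div_eq_of_add_mod_lt h0
    rw [← dig_shift w (X + Y) 1 j, ← dig_shift w X 1 j, ← dig_shift w Y 1 j, h1]
    apply ih
    intro i
    rw [dig_shift, dig_shift]
    exact h _

theorem dig_mod (w X J j : ℕ) : dig w (X % 2 ^ (w * J)) j = if j < J then dig w X j else 0 := by
  apply Nat.eq_of_testBit_eq
  intro i
  rw [testBit_dig, Nat.testBit_mod_two_pow]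
  split_ifs with h
  · rw [testBit_dig]
    by_cases hi : i < w
    · have : w * j + i < w * J := by nlinarith
      simp [this]
    · simp [hi]
  · have : ¬ w * j + i < w * J := by
      have : w * J ≤ w * j := Nat.mul_le_mul_left _ (by omega)
      omega
    simp [this]

theorem dig_of_bits (w Y j : ℕ) (hw : 0 < w)
    (h : ∀ r, 0 < r → r < w → Y.testBit (w * j + r) = false) :
    dig w Y j = if Y.testBit (w * j) then 1 else 0 := by
  apply Nat.eq_of_testBit_eq
  intro i
  rw [testBit_dig]
  rcases Nat.eq_zero_or_pos i with rfl | hi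
  · split_ifs with hb <;> simp [hw, hb]
  · have h1 : (1 : ℕ).testBit i = false := by
      rw [Bool.eq_false_iff]
      intro h2
      have := Nat.testBit_one_eq_true_iff_self_eq_zero.mp h2
      omega
    by_cases hiw : i < w
    · rw [h i hi hiw]
      split_ifs <;> simp [h1]
    · split_ifs <;> simp [h1, hiw]

/-- The number with bits at `0, q, …, (K - 1) q`. -/
def geo (q : ℕ) : ℕ → ℕ
  | 0 => 0
  | K + 1 => 2 ^ q * geo q K + 1

theorem geo_eq (q : ℕ) : ∀ K, (2 ^ q - 1) * geo q K + 1 = 2 ^ (q * K)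
  | 0 => by simp [geo]
  | K + 1 => by
    have h := geo_eq q K
    have h1 : 1 ≤ 2 ^ q := Nat.one_le_two_pow
    obtain ⟨a, ha⟩ := Nat.exists_eq_add_of_le' h1
    rw [geo, Nat.mul_succ q K, pow_add, ← h, ha, Nat.add_sub_cancel]
    ring

theorem testBit_geo (q : ℕ) (hq : 0 < q) :
    ∀ K i, (geo q K).testBit i = true ↔ (q ∣ i ∧ i < q * K)
  | 0, i => by simp [geo]
  | K + 1, i => by
    rw [geo, Nat.testBit_two_pow_mul_add _ (Nat.one_lt_two_pow (by omega))]
    split_ifs with h
    · rw [Nat.testBit_one_eq_true_iff_self_eq_zero]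
      constructor
      · rintro rfl
        exact ⟨dvd_zero _, by positivity⟩
      · rintro ⟨h1, _⟩
        exact Nat.eq_zero_of_dvd_of_lt h1 h
    · rw [testBit_geo q hq K, Nat.mul_succ]
      have hle : q ≤ i := by omega
      constructor
      · rintro ⟨h1, h2⟩
        exact ⟨(Nat.dvd_sub_iff_left hle (dvd_refl q)).mp h1, by omega⟩
      · rintro ⟨h1, h2⟩
        exact ⟨Nat.dvd_sub h1 (dvd_refl q), by omega⟩

theorem div_eq_geo (q N : ℕ) (hq : 0 < q) :
    (2 ^ N - 1) / (2 ^ q - 1) = 2 ^ (N % q) * geo q (N / q) := by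
  have h1 := geo_eq q (N / q)
  have h2 : 2 ^ N = 2 ^ (N % q) * 2 ^ (q * (N / q)) := by
    rw [← pow_add, Nat.mod_add_div]
  have h3 : 2 ^ (N % q) < 2 ^ q := Nat.pow_lt_pow_right (by norm_num) (Nat.mod_lt _ hq)
  have h4 : 1 ≤ 2 ^ (N % q) := Nat.one_le_two_pow
  have h5 : 2 ^ N - 1 = (2 ^ (N % q) - 1) + (2 ^ q - 1) * (2 ^ (N % q) * geo q (N / q)) := by
    rw [h2, ← h1]
    obtain ⟨a, ha⟩ := Nat.exists_eq_add_of_le' h4
    rw [ha, Nat.add_sub_cancel]
    apply Nat.sub_eq_of_eq_add
    ring
  rw [h5, Nat.add_mul_div_left _ _ (by omega), Nat.div_eq_of_lt (by omega), Nat.zero_add]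

theorem ones_eq_geo (w K : ℕ) (hw : 0 < w) : (2 ^ (w * K) - 1) / (2 ^ w - 1) = geo w K := by
  rw [div_eq_geo w _ hw, Nat.mul_mod_right, Nat.mul_div_cancel_left _ hw]
  simp

theorem geo_bits (w K j r : ℕ) (hr0 : 0 < r) (hr : r < w) :
    (geo w K).testBit (w * j + r) = false := by
  rw [Bool.eq_false_iff]
  intro h
  have h1 := ((testBit_geo w (by omega) K _).mp h).1
  have h2 : w ∣ r := (Nat.dvd_add_right (dvd_mul_right w j)).mp h1
  have := Nat.le_of_dvd hr0 h2
  omega

theorem geo_bit0 (w K j : ℕ) (hw : 0 < w) : (geo w K).testBit (w * j) = decide (j < K) := by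
  rw [Bool.eq_iff_iff, testBit_geo w hw, decide_eq_true_iff]
  constructor
  · rintro ⟨_, h⟩
    exact lt_of_mul_lt_mul_left h (Nat.zero_le _)
  · intro h
    exact ⟨dvd_mul_right _ _, Nat.mul_lt_mul_of_pos_left h hw⟩

theorem dig_geo (w K j : ℕ) (hw : 0 < w) : dig w (geo w K) j = if j < K then 1 else 0 := by
  rw [dig_of_bits w _ j hw (fun r h0 h1 => geo_bits w K j r h0 h1), geo_bit0 w K j hw]
  simp

theorem dig_mask (w K X r j : ℕ) (hw : 0 < w) :
    dig w ((X >>> r) &&& geo w K) j = if X.testBit (w * j + r) = true ∧ j < K then 1 else 0 := by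
  rw [dig_of_bits w _ j hw]
  · rw [Nat.testBit_and, Nat.testBit_shiftRight, geo_bit0 w K j hw, Nat.add_comm r]
    simp
  · intro r' h0 h1
    rw [Nat.testBit_and, geo_bits w K j r' h0 h1, Bool.and_false]

/-- The sieving numbers: a set of integers `≥ 2` that holds every prime. -/
def keep (q : ℕ) : Bool :=
  Nat.ble 2 q && (Nat.ble q 60 || Nat.beq (Nat.gcd q (Nat.factorial 60)) 1)

theorem keep_two_le {q : ℕ} (h : keep q = true) : 2 ≤ q := by
  simp only [keep, Bool.and_eq_true, Nat.ble_eq] at h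
  exact h.1

theorem keep_prime {q : ℕ} (h : q.Prime) : keep q = true := by
  simp only [keep, Bool.and_eq_true, Nat.ble_eq, Bool.or_eq_true, Nat.beq_eq]
  refine ⟨h.two_le, ?_⟩
  by_cases h1 : q ≤ 60
  · exact Or.inl h1
  · right
    exact (Nat.Prime.coprime_iff_not_dvd h).mpr (fun h2 => h1 (h.dvd_factorial.mp h2))

/-- The proper multiples of `q`. -/
def mask (N q : ℕ) : ℕ := ((2 ^ N - 1) / (2 ^ q - 1)) <<< (2 * q - N % q)

theorem testBit_mask (N q i : ℕ) (hq : 0 < q) (hi : i < N) :
    (mask N q).testBit i = true ↔ (q ∣ i ∧ 2 * q ≤ i) := by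
  have h1 : mask N q = 2 ^ (2 * q) * geo q (N / q) := by
    have := Nat.mod_lt N hq
    rw [mask, div_eq_geo q N hq, Nat.shiftLeft_eq, Nat.mul_right_comm, ← pow_add]
    congr 2
    omega
  rw [h1, Nat.testBit_two_pow_mul, Bool.and_eq_true, decide_eq_true_iff, testBit_geo q hq]
  have h2 : q ∣ 2 * q := dvd_mul_left q 2
  constructor
  · rintro ⟨h3, h4, _⟩
    exact ⟨(Nat.dvd_sub_iff_left h3 h2).mp h4, h3⟩
  · rintro ⟨h3, h4⟩
    refine ⟨h4, Nat.dvd_sub h3 h2, ?_⟩
    have := Nat.mod_add_div N q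
    have := Nat.mod_lt N hq
    omega

/-- Sieve by the numbers in `[base, base + r)`. -/
def inner (N base : ℕ) : ℕ → ℕ
  | 0 => 0
  | r + 1 => bif keep (base + r) then inner N base r ||| mask N (base + r) else inner N base r

/-- Sieve by the numbers below `s * t`; the bits `0` and `1` are set. -/
def outer (N s : ℕ) : ℕ → ℕ
  | 0 => 3
  | t + 1 => outer N s t ||| inner N (s * t) s

theorem testBit_inner (N base i : ℕ) : ∀ r, (inner N base r).testBit i = true ↔
    ∃ q, base ≤ q ∧ q < base + r ∧ keep q = true ∧ (mask N q).testBit i = true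
  | 0 => by
    simp only [inner, Nat.zero_testBit, Bool.false_eq_true, false_iff]
    rintro ⟨q, h1, h2, _⟩
    omega
  | r + 1 => by
    have ih := testBit_inner N base i r
    rw [inner]
    cases hk : keep (base + r)
    · rw [cond_false, ih]
      constructor
      · rintro ⟨q, h1, h2, h3⟩
        exact ⟨q, h1, by omega, h3⟩
      · rintro ⟨q, h1, h2, h3, h4⟩
        refine ⟨q, h1, ?_, h3, h4⟩
        by_contra hc
        have : q = base + r := by omega
        rw [this, hk] at h3
        exact absurd h3 (by simp)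
    · rw [cond_true, Nat.testBit_or, Bool.or_eq_true, ih]
      constructor
      · rintro (⟨q, h1, h2, h3⟩ | h)
        · exact ⟨q, h1, by omega, h3⟩
        · exact ⟨base + r, by omega, by omega, hk, h⟩
      · rintro ⟨q, h1, h2, h3, h4⟩
        by_cases hc : q = base + r
        · right; rw [← hc]; exact h4
        · left; exact ⟨q, h1, by omega, h3, h4⟩

theorem testBit_outer (N s i : ℕ) : ∀ t, (outer N s t).testBit i = true ↔
    (i < 2 ∨ ∃ q, q < s * t ∧ keep q = true ∧ (mask N q).testBit i = true)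
  | 0 => by
    have : (3 : ℕ) = 2 ^ 2 - 1 := by norm_num
    rw [outer, this, Nat.testBit_two_pow_sub_one]
    simp
  | t + 1 => by
    rw [outer, Nat.testBit_or, Bool.or_eq_true, testBit_outer N s i t, testBit_inner,
      Nat.mul_succ]
    constructor
    · rintro ((h | ⟨q, h1, h2⟩) | ⟨q, h1, h2, h3⟩)
      · exact Or.inl h
      · exact Or.inr ⟨q, by omega, h2⟩
      · exact Or.inr ⟨q, h2, h3⟩
    · rintro (h | ⟨q, h1, h2⟩)
      · exact Or.inl (Or.inl h)
      · by_cases hc : q < s * t
        · exact Or.inl (Or.inr ⟨q, hc, h2⟩)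
        · exact Or.inr ⟨q, by omega, h1, h2⟩

theorem testBit_sieve (N s t i : ℕ) (hN : N ≤ (s * t) ^ 2) (hi : i < N) :
    (outer N s t ^^^ (2 ^ N - 1)).testBit i = true ↔ i.Prime := by
  rw [Nat.testBit_xor, Nat.testBit_two_pow_sub_one, decide_eq_true hi, Bool.xor_true,
    Bool.not_eq_true', Bool.eq_false_iff, Ne, testBit_outer]
  constructor
  · intro h
    by_contra hp
    apply h
    by_cases h2 : i < 2
    · exact Or.inl h2
    · right
      have hq : i.minFac.Prime := Nat.minFac_prime (by omega)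
      have hsq := Nat.minFac_sq_le_self (n := i) (by omega) hp
      refine ⟨i.minFac, ?_, keep_prime hq, ?_⟩
      · exact lt_of_pow_lt_pow_left₀ 2 (Nat.zero_le _) (by omega)
      · rw [testBit_mask N _ i hq.pos hi]
        have := hq.two_le
        exact ⟨Nat.minFac_dvd i, by nlinarith⟩
  · rintro hp (h | ⟨q, _, h2, h3⟩)
    · have := hp.two_le
      omega
    · have h4 := keep_two_le h2
      rw [testBit_mask N q i (by omega) hi] at h3
      rcases (Nat.dvd_prime hp).mp h3.1 with h5 | h5 <;> omega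

/-- Blockwise bit counts. -/
def blk (X M : ℕ) : ℕ → ℕ
  | 0 => 0
  | r + 1 => blk X M r + ((X >>> r) &&& M)

theorem dig_blk (w K X : ℕ) (hw : 0 < w)
    (hX : ∀ i, i < w * K → (X.testBit i = true ↔ i.Prime)) :
    ∀ r, r ≤ w → ∀ j, dig w (blk X (geo w K) r) j ≤ r ∧
      (j < K → dig w (blk X (geo w K) r) j + Nat.count Nat.Prime (w * j)
        = Nat.count Nat.Prime (w * j + r)) ∧ (K ≤ j → dig w (blk X (geo w K) r) j = 0)
  | 0, _, j => by simp [blk, dig]
  | r + 1, hr, j => by
    have ih := dig_blk w K X hw hX r (by omega)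
    have hlt : w < 2 ^ w := Nat.lt_two_pow_self
    rw [blk, dig_add]
    · rw [dig_mask w K X r j hw]
      obtain ⟨h1, h2, h3⟩ := ih j
      refine ⟨by split_ifs <;> omega, ?_, ?_⟩
      · intro hj
        have hlt2 : w * j + r < w * K := by nlinarith
        rw [← Nat.add_assoc, Nat.count_succ, ← h2 hj]
        simp only [hX _ hlt2, hj, and_true]
        omega
      · intro hj
        have : ¬ j < K := by omega
        simp [h3 hj, this]
    · intro i
      rw [dig_mask w K X r i hw]
      have := (ih i).1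
      split_ifs <;> omega

/-- Sums of `2 ^ t` consecutive digits. -/
def suf (w C : ℕ) : ℕ → ℕ
  | 0 => C
  | t + 1 => suf w C t + (suf w C t >>> (w * 2 ^ t))

theorem dig_suf (w C B : ℕ) (Q : ℕ → ℕ) (hQ : ∀ j, Q j ≤ B) (hB : 2 * B < 2 ^ w)
    (hC : ∀ j, dig w C j + Q j = Q (j + 1)) :
    ∀ t j, dig w (suf w C t) j + Q j = Q (j + 2 ^ t)
  | 0, j => by simpa [suf] using hC j
  | t + 1, j => by
    have ih := dig_suf w C B Q hQ hB hC t
    rw [suf, dig_add]
    · rw [dig_shift]
      have h1 := ih j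
      have h2 := ih (j + 2 ^ t)
      have h3 : j + 2 ^ (t + 1) = j + 2 ^ t + 2 ^ t := by ring
      rw [h3]
      omega
    · intro i
      rw [dig_shift]
      have h1 := ih i
      have h2 := ih (i + 2 ^ t)
      have h3 := hQ (i + 2 ^ t)
      have h4 := hQ (i + 2 ^ t + 2 ^ t)
      omega

/-- Digitwise comparison of the first `J` digits. -/
def cmp (w A B M : ℕ) : Bool :=
  Nat.beq (B - A - M + A + M) B && Nat.beq ((B - A - M) &&& (M <<< (w - 1))) 0

theorem cmp_sound (w J A B : ℕ) (hw : 2 ≤ w) (hA : ∀ j, dig w A j < 2 ^ (w - 1))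
    (hA0 : ∀ j, J ≤ j → dig w A j = 0) (h : cmp w A B (geo w J) = true) :
    ∀ j, j < J → dig w A j < dig w B j := by
  simp only [cmp, Bool.and_eq_true, Nat.beq_eq] at h
  obtain ⟨h1, h2⟩ := h
  set Z := B - A - geo w J with hZ
  have hpow : 2 ^ w = 2 * 2 ^ (w - 1) := by
    rw [← pow_succ']; congr 1; omega
  have hz : ∀ j, j < J → dig w Z j < 2 ^ (w - 1) := by
    intro j hj
    apply Nat.lt_pow_two_of_testBit
    intro i hi
    rw [testBit_dig]
    by_cases hiw : i < w
    · have hi' : i = w - 1 := by omega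
      have h3 := congrArg (fun x => Nat.testBit x (w * j + i)) h2
      simp only [Nat.testBit_and, Nat.testBit_shiftLeft, Nat.zero_testBit] at h3
      have h4 : w * j + i - (w - 1) = w * j := by omega
      rw [h4, geo_bit0 w J j (by omega)] at h3
      have h5 : w * j + i ≥ w - 1 := by omega
      simpa [h5, hj, hiw] using h3
    · simp [hiw]
  have hZA : ∀ j, dig w Z j + dig w A j + (if j < J then 1 else 0) < 2 ^ w := by
    intro j
    split_ifs with hj
    · have := hz j hj
      have := hA j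
      omega
    · have := hA0 j (by omega)
      have := dig_lt w Z j
      omega
  have h6 : ∀ j, dig w (Z + A) j = dig w Z j + dig w A j := fun j =>
    dig_add w j Z A (fun i => by have := hZA i; omega)
  intro j hj
  rw [← h1, dig_add w j (Z + A) (geo w J), h6, dig_geo w J j (by omega), if_pos hj]
  · omega
  · intro i
    rw [h6, dig_geo w J i (by omega)]
    exact hZA i

/-- The final test on the suffix sums `S`. -/
def fin (w J m S : ℕ) : Bool :=
  cmp w ((S >>> (w * m) + S >>> (w * m)) % 2 ^ (w * J))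
    ((S >>> (w * (2 * m + 1)) + S >>> (w * 1)) % 2 ^ (w * J))
    ((2 ^ (w * J) - 1) / (2 ^ w - 1)) &&
  Nat.ble (dig w S J + w * m) (dig w S 0)

/-- The whole test. -/
def check (w J m s t T : ℕ) : Bool :=
  fin w J m (suf w (blk (outer (w * (J + 2 * m)) s t ^^^ (2 ^ (w * (J + 2 * m)) - 1))
    ((2 ^ (w * (J + 2 * m)) - 1) / (2 ^ w - 1)) w) T)

theorem check_sound (w J m s t T : ℕ) (hw : 2 ≤ w) (hm : 0 < m)
    (hN : w * (J + 2 * m) ≤ (s * t) ^ 2) (hT : J + 2 * m ≤ 2 ^ T)
    (hB : 2 * (w * (J + 2 * m)) < 2 ^ (w - 1)) (h : check w J m s t T = true) :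
    ∀ p, p ≤ Nat.nth Nat.Prime (w * m - 1) →
      Nat.primeCounting (p + 2 * (w * m)) + Nat.primeCounting p
        < 2 * Nat.primeCounting (p + w * m) := by
  have hw0 : 0 < w := by omega
  set K := J + 2 * m with hK
  simp only [check, fin, ← hK, ones_eq_geo _ _ hw0, Bool.and_eq_true, Nat.ble_eq] at h
  set X := outer (w * K) s t ^^^ (2 ^ (w * K) - 1) with hXdef
  have hX : ∀ i, i < w * K → (X.testBit i = true ↔ i.Prime) :=
    fun i hi => testBit_sieve (w * K) s t i hN hi
  set Q : ℕ → ℕ := fun j => Nat.count Nat.Prime (w * min j K) with hQdef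
  have hQ : ∀ j, Q j ≤ w * K := fun j =>
    le_trans (Nat.count_le _) (Nat.mul_le_mul_left _ (min_le_right _ _))
  have hpow : 2 ^ w = 2 * 2 ^ (w - 1) := by
    rw [← pow_succ']; congr 1; omega
  have hC : ∀ j, dig w (blk X (geo w K) w) j + Q j = Q (j + 1) := by
    intro j
    obtain ⟨_, h2, h3⟩ := dig_blk w K X hw0 hX w le_rfl j
    by_cases hj : j < K
    · simp only [hQdef, min_eq_left hj.le, min_eq_left (Nat.succ_le_of_lt hj)]
      exact h2 hj
    · have hj' : K ≤ j := by omega
      simp only [hQdef, min_eq_right hj', min_eq_right (hj'.trans (Nat.le_succ j)), h3 hj',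
        Nat.zero_add]
  set S := suf w (blk X (geo w K) w) T with hSdef
  have hS : ∀ j, dig w S j + Q j = Q K := by
    intro j
    rw [dig_suf w _ (w * K) Q hQ (by omega) hC T j]
    simp only [hQdef, min_self, min_eq_right (hT.trans (Nat.le_add_left _ j))]
  have hSle : ∀ j, dig w S j ≤ w * K := fun j => by have := hS j; have := hQ K; omega
  have hadd : ∀ a b j, dig w (S >>> (w * a) + S >>> (w * b)) j
      = dig w S (j + a) + dig w S (j + b) := by
    intro a b j
    rw [dig_add, dig_shift, dig_shift]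
    intro i
    rw [dig_shift, dig_shift]
    have := hSle (i + a)
    have := hSle (i + b)
    omega
  obtain ⟨h1, h2⟩ := h
  have h3 := cmp_sound w J _ _ hw (fun j => by
      rw [dig_mod, hadd]
      have := hSle (j + m)
      split_ifs <;> omega) (fun j hj => by rw [dig_mod, if_neg (by omega)]) h1
  have hcount : w * m ≤ Nat.count Nat.Prime (w * J) := by
    have h4 := hS 0
    have h5 := hS J
    have h6 : Q 0 = 0 := by simp [hQdef]
    have h7 : Q J = Nat.count Nat.Prime (w * J) := by
      simp only [hQdef, min_eq_left (show J ≤ K by omega)]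
    omega
  have hpos : 0 < w * m := Nat.mul_pos hw0 hm
  have hnth : Nat.nth Nat.Prime (w * m - 1) < w * J := Nat.nth_lt_of_lt_count (by omega)
  intro p hp
  have hj : p / w < J := by
    rw [Nat.div_lt_iff_lt_mul hw0, Nat.mul_comm]
    omega
  have h4 := h3 (p / w) hj
  rw [dig_mod, dig_mod, if_pos hj, if_pos hj, hadd, hadd] at h4
  have h5 := hS (p / w + m)
  have h6 := hS (p / w + (2 * m + 1))
  have h7 := hS (p / w + 1)
  have h8 := Nat.div_add_mod p w
  have h9 := Nat.mod_lt p hw0
  have e1 : Nat.primeCounting p ≤ Q (p / w + 1) := by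
    simp only [hQdef, min_eq_left (show p / w + 1 ≤ K by omega)]
    exact Nat.count_monotone _ (by rw [Nat.mul_add]; omega)
  have e2 : Q (p / w + m) ≤ Nat.primeCounting (p + w * m) := by
    simp only [hQdef, min_eq_left (show p / w + m ≤ K by omega)]
    exact Nat.count_monotone _ (by rw [Nat.mul_add]; omega)
  have e3 : Nat.primeCounting (p + 2 * (w * m)) ≤ Q (p / w + (2 * m + 1)) := by
    simp only [hQdef, min_eq_left (show p / w + (2 * m + 1) ≤ K by omega)]
    refine Nat.count_monotone _ ?_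
    have : w * (p / w + (2 * m + 1)) = w * (p / w) + 2 * (w * m) + w := by ring
    omega
  omega

end Pool.Agent.Lib.MP_d7b30a_nt
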